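import Pool.Agent.Lib.MP_b9b22b_co.Lin.Base

/-!
SYS: the transversal design construction.
-/

set_option autoImplicit false

namespace Pool.Agent.Lib.MP_b9b22b_co.Lin

open Finset

namespace H83

/-- Differences of different residues are units. -/
theorem isUnit_sub {P m : ℕ} (hco : Nat.Coprime m (Nat.factorial (P - 1)))
    {x y : ℕ} (hx : x < P) (hy : y < P) (h : x ≠ y) : IsUnit ((x : ZMod m) - (y : ZMod m)) := by
  wlog hlt : y < x generalizing x y
  · have := this hy hx h.symm (by omega)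
    rw [← neg_sub]
    exact this.neg
  · have h1 : ((x - y : ℕ) : ZMod m) = (x : ZMod m) - y := by rw [Nat.cast_sub hlt.le]
    rw [← h1, ZMod.isUnit_iff_coprime]
    have hd : x - y ∣ Nat.factorial (P - 1) := Nat.dvd_factorial (by omega) (by omega)
    exact (Nat.Coprime.coprime_dvd_right hd hco).symm

open scoped Classical in
/-- A system of copies on arbitrary finite types. -/
theorem sysOf {k : ℕ} {R : Fin k → Fin k → Prop} {v c r : ℕ} {G C : Type} [Fintype G] [Fintype C]
    (hG : Fintype.card G = v) (hC : Fintype.card C = c) (cls : G → ℕ) (pl : C → Fin k → G)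
    (sep : ∀ i a b, R a b → cls (pl i a) ≠ cls (pl i b))
    (cov : ∀ g g', cls g ≠ cls g' → ∃! x : C × Fin k × Fin k,
      R x.2.1 x.2.2 ∧ pl x.1 x.2.1 = g ∧ pl x.1 x.2.2 = g')
    (port : ∀ g, (univ.filter fun x : C × Fin k => pl x.1 x.2 = g).card ≤ r) :
    Nonempty (Sys k R v c r) := by
  let eG : Fin v ≃ G := (Fintype.equivFinOfCardEq hG).symm
  let eC : Fin c ≃ C := (Fintype.equivFinOfCardEq hC).symm
  refine ⟨⟨fun g => cls (eG g), fun i a => eG.symm (pl (eC i) a), ?_, ?_, ?_⟩⟩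
  · intro i a b hab
    simp only [Equiv.apply_symm_apply]
    exact sep _ a b hab
  · intro g g' hg
    obtain ⟨x, ⟨h1, h2, h3⟩, hu⟩ := cov (eG g) (eG g') hg
    refine ⟨(eC.symm x.1, x.2.1, x.2.2), ⟨h1, ?_, ?_⟩, ?_⟩
    · simp [h2]
    · simp [h3]
    · rintro ⟨y1, y2, y3⟩ ⟨k1, k2, k3⟩
      have := hu (eC y1, y2, y3) ⟨k1, by rw [← k2]; simp, by rw [← k3]; simp⟩
      rw [← this]
      simp
  · intro g
    refine le_trans ?_ (port (eG g))
    refine Finset.card_le_card_of_injOn (fun x => (eC x.1, x.2)) ?_ ?_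
    · intro x hx
      have hx' : eG.symm (pl (eC x.1) x.2) = g := by simpa using hx
      have : pl (eC x.1) x.2 = eG g := by rw [← hx']; simp
      simpa using this
    · intro x _ y _ hxy
      simp only [Prod.mk.injEq] at hxy
      exact Prod.ext (eC.injective hxy.1) hxy.2

end H83

open H83 in
theorem sys : SysStatement := by
  classical
  intro k R P m s₀ hP hm hco ⟨S, φ, hS, hne, hdec⟩
  have : Fact P.Prime := ⟨hP⟩
  have : NeZero P := ⟨hP.ne_zero⟩
  have : NeZero m := ⟨hm.ne'⟩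
  have hval : ∀ x : ZMod P, x.val < P := fun x => ZMod.val_lt x
  refine sysOf (G := ZMod P × ZMod m) (C := S × ZMod P × ZMod m × ZMod m) ?_ ?_
    (fun g => g.1.val)
    (fun c a => ((c.1 : ZMod P) * φ a + c.2.1,
      c.2.2.1 + c.2.2.2 * (((c.1 : ZMod P) * φ a + c.2.1).val : ZMod m))) ?_ ?_ ?_
  · simp [ZMod.card]
  · simp [ZMod.card, hS]
    ring
  · rintro ⟨⟨s, hs⟩, t, i, j⟩ a b hab h
    have h1 : s * φ a + t = s * φ b + t := ZMod.val_injective P h
    have h2 : s * φ a = s * φ b := add_right_cancel h1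
    apply hne s hs a b hab
    rw [mul_sub, h2, sub_self]
  · rintro ⟨x, y⟩ ⟨x', y'⟩ hg
    have hxx : x ≠ x' := fun h => hg (by simp [h])
    obtain ⟨⟨s, a, b⟩, ⟨hs, hab, hδ⟩, hu⟩ := hdec (x' - x) (sub_ne_zero.mpr hxx.symm)
    simp only at hs hab hδ
    have hunit : IsUnit ((x'.val : ZMod m) - (x.val : ZMod m)) :=
      isUnit_sub hco (hval x') (hval x) (fun h => hg h.symm)
    obtain ⟨u, hu1⟩ := hunit
    have hxt : s * φ b + (x - s * φ a) = x' := by
      have : s * φ b - s * φ a = x' - x := by rw [← mul_sub]; exact hδ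
      linear_combination this
    refine ⟨((⟨s, hs⟩, x - s * φ a, y - (↑u⁻¹ * (y' - y)) * (x.val : ZMod m), ↑u⁻¹ * (y' - y)),
      a, b), ⟨hab, ?_, ?_⟩, ?_⟩
    · refine Prod.ext ?_ ?_
      · simp
      · simp
    · refine Prod.ext ?_ ?_
      · exact hxt
      · simp only [hxt]
        have h3 : ((u⁻¹ : (ZMod m)ˣ) : ZMod m) * (u : ZMod m) = 1 := by simp
        have h4 : (u : ZMod m) = (x'.val : ZMod m) - (x.val : ZMod m) := hu1
        rw [h4] at h3
        linear_combination (y' - y) * h3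
    · rintro ⟨⟨⟨s1, hs1⟩, t1, i1, j1⟩, a1, b1⟩ ⟨k1, k2, k3⟩
      simp only [Prod.mk.injEq] at k1 k2 k3
      obtain ⟨k2a, k2b⟩ := k2
      obtain ⟨k3a, k3b⟩ := k3
      have h5 := hu (s1, a1, b1) ⟨hs1, k1, by
        simp only
        rw [← k2a, ← k3a]; ring⟩
      simp only [Prod.mk.injEq] at h5
      obtain ⟨rfl, rfl, rfl⟩ := h5
      have h6 : t1 = x - s1 * φ a1 := by rw [← k2a]; ring
      rw [k2a] at k2b
      rw [k3a] at k3b
      have h3 : ((u⁻¹ : (ZMod m)ˣ) : ZMod m) * (u : ZMod m) = 1 := by simp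
      have h4 : (u : ZMod m) = (x'.val : ZMod m) - (x.val : ZMod m) := hu1
      rw [h4] at h3
      have h7 : j1 = ↑u⁻¹ * (y' - y) := by
        rw [← k2b, ← k3b]
        linear_combination (-j1) * h3
      have h8 : i1 = y - (↑u⁻¹ * (y' - y)) * (x.val : ZMod m) := by
        rw [← h7]
        linear_combination k2b
      subst h6
      rw [h8, h7]
  · rintro ⟨x, y⟩
    have hcard : (univ : Finset (ZMod m × S × Fin k)).card = m * s₀ * k := by
      simp [ZMod.card, hS]
      ring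
    rw [← hcard]
    refine Finset.card_le_card_of_injOn (fun z => (z.1.2.2.2, z.1.1, z.2)) (fun _ _ => by simp) ?_
    rintro ⟨⟨s, t, i, j⟩, a⟩ hz ⟨⟨s', t', i', j'⟩, a'⟩ hz' heq
    simp only [Prod.mk.injEq] at heq
    obtain ⟨rfl, rfl, rfl⟩ := heq
    simp only [coe_filter, mem_univ, true_and, Set.mem_ofPred_eq, Prod.mk.injEq] at hz hz'
    obtain ⟨hz1, hz2⟩ := hz
    obtain ⟨hz3, hz4⟩ := hz'
    have ht : t = t' := by
      have := hz1.trans hz3.symm
      exact add_left_cancel this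
    subst ht
    have hi : i = i' := by
      have := hz2.trans hz4.symm
      exact add_right_cancel this
    subst hi
    rfl

end Pool.Agent.Lib.MP_b9b22b_co.Lin
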